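import Pool.Agent.Run7.h677.PS.Stm

/-!
# Project PS, piece K3: the inequalities of a Freudenthal simplex
-/

set_option autoImplicit false

namespace Pool.Agent.Run7.h677.PS

open Finset

/-- points of the convex hull of part of a finite family -/
theorem K3_hull {ι E' : Type} [Fintype ι] [DecidableEq ι] [AddCommGroup E'] [Module ℝ E']
    (V : ι → E') (J : Finset ι) (x : E') :
    x ∈ convexHull ℝ (V '' (J : Set ι)) ↔ ∃ t : ι → ℝ, (∀ j, 0 ≤ t j) ∧ (∀ j, j ∉ J → t j = 0) ∧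
      ∑ j, t j = 1 ∧ ∑ j, t j • V j = x := by
  constructor
  · intro hx
    have hsub : V '' (J : Set ι) ⊆ {x | ∃ t : ι → ℝ, (∀ j, 0 ≤ t j) ∧ (∀ j, j ∉ J → t j = 0) ∧
        ∑ j, t j = 1 ∧ ∑ j, t j • V j = x} := by
      rintro _ ⟨j, hj, rfl⟩
      refine ⟨Pi.single j 1, fun i => ?_, fun i hi => ?_, ?_, ?_⟩
      · by_cases h : i = j
        · subst h; simp
        · simp [h]
      · have : i ≠ j := fun h => hi (h ▸ hj)
        simp [this]
      · simp
      · simp [Pi.single_apply, ite_smul]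
    have hconv : Convex ℝ {x | ∃ t : ι → ℝ, (∀ j, 0 ≤ t j) ∧ (∀ j, j ∉ J → t j = 0) ∧
        ∑ j, t j = 1 ∧ ∑ j, t j • V j = x} := by
      rintro x ⟨t, h1, h2, h3, h4⟩ y ⟨s, g1, g2, g3, g4⟩ a b ha hb hab
      refine ⟨fun j => a * t j + b * s j, fun j => ?_, fun j hj => ?_, ?_, ?_⟩
      · exact add_nonneg (mul_nonneg ha (h1 j)) (mul_nonneg hb (g1 j))
      · simp [h2 j hj, g2 j hj]
      · rw [Finset.sum_add_distrib, ← Finset.mul_sum, ← Finset.mul_sum, h3, g3]
        linarith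
      · rw [← h4, ← g4, Finset.smul_sum, Finset.smul_sum, ← Finset.sum_add_distrib]
        refine Finset.sum_congr rfl fun j _ => ?_
        rw [add_smul, mul_smul, mul_smul]
    exact convexHull_min hsub hconv hx
  · rintro ⟨t, h1, h2, h3, rfl⟩
    have e1 : ∑ j, t j • V j = ∑ j ∈ J, t j • V j := by
      symm
      apply Finset.sum_subset (Finset.subset_univ J)
      intro j _ hj
      rw [h2 j hj, zero_smul]
    have e2 : ∑ j ∈ J, t j = 1 := by
      rw [← h3]
      apply Finset.sum_subset (Finset.subset_univ J)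
      intro j _ hj
      rw [h2 j hj]
    rw [e1]
    exact (convex_convexHull ℝ _).sum_mem (fun j _ => h1 j) e2
      (fun j hj => subset_convexHull ℝ _ ⟨j, hj, rfl⟩)

theorem K3_tel (Y : ℕ → ℝ) (m N : ℕ) (h : m + 1 ≤ N) :
    ∑ j ∈ range N, (if m < j then Y j - Y (j + 1) else 0) = Y (m + 1) - Y N := by
  induction N, h using Nat.le_induction with
  | base =>
    rw [sub_self]
    refine Finset.sum_eq_zero fun j hj => ?_
    rw [if_neg]
    have := mem_range.1 hj
    omega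
  | succ N hN ih =>
    rw [Finset.sum_range_succ, ih, if_pos (by omega)]
    ring

/-- coordinates of a combination of the vertices -/
theorem K3_coord {d : ℕ} (a : Fin d → ℤ) (π : Equiv.Perm (Fin d)) (t : Fin (d + 1) → ℝ)
    (ht : ∑ j, t j = 1) (i : Fin d) :
    (∑ j, t j • (fun i => ((kv a π j i : ℤ) : ℝ))) i = a i +
      ∑ j : Fin (d + 1), if ((π.symm i : Fin d) : ℕ) < (j : ℕ) then t j else 0 := by
  rw [Finset.sum_apply]
  have : ∀ j : Fin (d + 1), (t j • (fun i => ((kv a π j i : ℤ) : ℝ))) i =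
      t j * a i + if ((π.symm i : Fin d) : ℕ) < (j : ℕ) then t j else 0 := by
    intro j
    simp only [Pi.smul_apply, smul_eq_mul, kv]
    split_ifs with h
    · push_cast; ring
    · push_cast; ring
  rw [Finset.sum_congr rfl fun j _ => this j, Finset.sum_add_distrib, ← Finset.sum_mul, ht, one_mul]

/-- the decreasing sequence `1 = Y 0, Y 1, …, Y d, Y (d + 1) = 0` -/
noncomputable def K3Y {d : ℕ} (a : Fin d → ℤ) (π : Equiv.Perm (Fin d)) (x : Fin d → ℝ) (m : ℕ) : ℝ :=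
  if m = 0 then 1 else if h : m - 1 < d then x (π ⟨m - 1, h⟩) - a (π ⟨m - 1, h⟩) else 0

theorem K3Y_zero {d : ℕ} (a : Fin d → ℤ) (π : Equiv.Perm (Fin d)) (x : Fin d → ℝ) :
    K3Y a π x 0 = 1 := by simp [K3Y]

theorem K3Y_succ {d : ℕ} (a : Fin d → ℤ) (π : Equiv.Perm (Fin d)) (x : Fin d → ℝ) (m : Fin d) :
    K3Y a π x ((m : ℕ) + 1) = x (π m) - a (π m) := by
  unfold K3Y
  rw [if_neg (by omega), dif_pos (by simp)]
  rfl

theorem K3Y_last {d : ℕ} (a : Fin d → ℤ) (π : Equiv.Perm (Fin d)) (x : Fin d → ℝ) :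
    K3Y a π x (d + 1) = 0 := by
  unfold K3Y
  rw [if_neg (by omega), dif_neg (by simp)]

theorem K3_comb {d : ℕ} (a : Fin d → ℤ) (π : Equiv.Perm (Fin d)) (x : Fin d → ℝ) :
    ∑ j : Fin (d + 1), (K3Y a π x j - K3Y a π x (j + 1)) = 1 ∧
    ∑ j : Fin (d + 1), (K3Y a π x j - K3Y a π x (j + 1)) • (fun i => ((kv a π j i : ℤ) : ℝ)) = x := by
  have h1 : ∑ j : Fin (d + 1), (K3Y a π x j - K3Y a π x (j + 1)) = 1 := by
    rw [Fin.sum_univ_eq_sum_range (fun j => K3Y a π x j - K3Y a π x (j + 1)) (d + 1),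
      Finset.sum_range_sub', K3Y_zero, K3Y_last]
    ring
  refine ⟨h1, funext fun i => ?_⟩
  rw [K3_coord a π (fun j => K3Y a π x j - K3Y a π x (j + 1)) h1 i]
  rw [Fin.sum_univ_eq_sum_range (fun j => if ((π.symm i : Fin d) : ℕ) < j then
    K3Y a π x j - K3Y a π x (j + 1) else 0) (d + 1), K3_tel _ _ _ (by omega), K3Y_last, K3Y_succ]
  simp

theorem K3_nonneg {d : ℕ} (a : Fin d → ℤ) (π : Equiv.Perm (Fin d)) (x : Fin d → ℝ) (hd : 1 ≤ d)
    (hb : ∀ i, (a i : ℝ) ≤ x i ∧ x i ≤ a i + 1)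
    (hm : ∀ l m : Fin d, l ≤ m → x (π m) - a (π m) ≤ x (π l) - a (π l)) (j : Fin (d + 1)) :
    0 ≤ K3Y a π x j - K3Y a π x (j + 1) := by
  obtain ⟨j, hj⟩ := j
  simp only
  rcases Nat.eq_zero_or_pos j with h0 | h0
  · subst h0
    have := K3Y_succ a π x ⟨0, hd⟩
    simp only [zero_add] at this ⊢
    rw [this, K3Y_zero]
    have := (hb (π ⟨0, hd⟩)).2
    linarith
  · obtain ⟨k, rfl⟩ : ∃ k, j = k + 1 := ⟨j - 1, by omega⟩
    have hk : k < d := by omega
    have e1 := K3Y_succ a π x ⟨k, hk⟩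
    simp only at e1
    rcases Nat.lt_or_ge (k + 1) d with h | h
    · have e2 := K3Y_succ a π x ⟨k + 1, h⟩
      simp only at e2
      rw [e1, e2]
      have := hm ⟨k, hk⟩ ⟨k + 1, h⟩ (by simp)
      linarith
    · have hkd : k + 1 + 1 = d + 1 := by omega
      have h4 : K3Y a π x (k + 1 + 1) = 0 := by
        rw [hkd]; exact K3Y_last a π x
      rw [e1, h4]
      have := (hb (π ⟨k, hk⟩)).1
      linarith

theorem K3_zh {d : ℕ} (a : Fin d → ℤ) (π : Equiv.Perm (Fin d)) :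
    zh (ks a π) = convexHull ℝ ((fun j => (fun i => ((kv a π j i : ℤ) : ℝ))) ''
      ((univ : Finset (Fin (d + 1))) : Set (Fin (d + 1)))) := by
  unfold zh ks
  congr 1
  ext y
  simp

theorem K3_ineq {d : ℕ} (a : Fin d → ℤ) (π : Equiv.Perm (Fin d)) (x : Fin d → ℝ)
    (hx : x ∈ zh (ks a π)) : (∀ i, (a i : ℝ) ≤ x i ∧ x i ≤ a i + 1) ∧
      ∀ l m : Fin d, l ≤ m → x (π m) - a (π m) ≤ x (π l) - a (π l) := by
  rw [K3_zh, K3_hull] at hx
  obtain ⟨t, h1, -, h3, rfl⟩ := hx
  refine ⟨fun i => ?_, fun l m hlm => ?_⟩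
  · rw [K3_coord a π t h3 i]
    have g1 : 0 ≤ ∑ j : Fin (d + 1), if ((π.symm i : Fin d) : ℕ) < (j : ℕ) then t j else 0 :=
      Finset.sum_nonneg fun j _ => by split_ifs; exacts [h1 j, le_rfl]
    have g2 : (∑ j : Fin (d + 1), if ((π.symm i : Fin d) : ℕ) < (j : ℕ) then t j else 0) ≤ 1 := by
      rw [← h3]
      exact Finset.sum_le_sum fun j _ => by split_ifs; exacts [le_rfl, h1 j]
    constructor <;> linarith
  · rw [K3_coord a π t h3, K3_coord a π t h3]
    have : (∑ j : Fin (d + 1), if ((π.symm (π m) : Fin d) : ℕ) < (j : ℕ) then t j else 0) ≤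
        ∑ j : Fin (d + 1), if ((π.symm (π l) : Fin d) : ℕ) < (j : ℕ) then t j else 0 := by
      refine Finset.sum_le_sum fun j _ => ?_
      rw [Equiv.symm_apply_apply, Equiv.symm_apply_apply]
      have hlm' : (l : ℕ) ≤ m := hlm
      split_ifs with g1 g2
      · exact le_rfl
      · omega
      · exact h1 j
      · exact le_rfl
    linarith

theorem K3_strict (Y : ℕ → ℝ) (N : ℕ) (hY : ∀ j, j < N → Y (j + 1) < Y j) (p q : ℕ) (hpq : p < q)
    (hq : q ≤ N) : Y q < Y p := by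
  induction q, hpq using Nat.le_induction with
  | base => exact hY p (by omega)
  | succ q h ih => exact (hY q (by omega)).trans (ih (by omega))

theorem t_K3 : S_K1 → S_K3 := by
  intro hK1 d a π x hd
  have hinj := (hK1 d a π).1
  refine ⟨⟨K3_ineq a π x, ?_⟩, ?_⟩
  · rintro ⟨hb, hm⟩
    rw [K3_zh, K3_hull]
    exact ⟨_, K3_nonneg a π x hd hb hm, fun j hj => absurd (mem_univ j) hj,
      (K3_comb a π x).1, (K3_comb a π x).2⟩
  · intro hx hno
    obtain ⟨hb, hm⟩ := K3_ineq a π x hx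
    have hpos : ∀ j : Fin (d + 1), 0 < K3Y a π x j - K3Y a π x (j + 1) := by
      intro j
      refine lt_of_le_of_ne (K3_nonneg a π x hd hb hm j) fun h0 => hno j ?_
      have : x ∈ convexHull ℝ ((fun j => (fun i => ((kv a π j i : ℤ) : ℝ))) ''
          ((univ.erase j : Finset (Fin (d + 1))) : Set (Fin (d + 1)))) := by
        rw [K3_hull]
        refine ⟨_, K3_nonneg a π x hd hb hm, fun l hl => ?_, (K3_comb a π x).1, (K3_comb a π x).2⟩
        have hl' : l = j := by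
          by_contra hne
          exact hl (mem_erase.2 ⟨hne, mem_univ l⟩)
        rw [hl']
        exact h0.symm
      refine convexHull_mono ?_ this
      rintro _ ⟨l, hl, rfl⟩
      have hlj : l ≠ j := (mem_erase.1 hl).1
      refine ⟨kv a π l, ?_, rfl⟩
      simp only [coe_erase, Set.mem_sdiff, Set.mem_singleton_iff, mem_coe, ks, mem_image]
      exact ⟨⟨l, mem_univ l, rfl⟩, fun h => hlj (hinj h)⟩
    have hY : ∀ j, j < d + 1 → K3Y a π x (j + 1) < K3Y a π x j := by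
      intro j hj
      have := hpos ⟨j, hj⟩
      simp only at this
      linarith
    have hst := K3_strict (K3Y a π x) (d + 1) hY
    refine ⟨fun i => ?_, fun l m hlm => ?_⟩
    · have g1 := hst 0 ((π.symm i : ℕ) + 1) (by omega) (by omega)
      have g2 := hst ((π.symm i : ℕ) + 1) (d + 1) (by omega) le_rfl
      rw [K3Y_zero, K3Y_succ] at g1
      rw [K3Y_last, K3Y_succ] at g2
      rw [Equiv.apply_symm_apply] at g1 g2
      constructor <;> linarith
    · have hlm' : (l : ℕ) < m := hlm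
      have g1 := hst ((l : ℕ) + 1) ((m : ℕ) + 1) (by omega) (by omega)
      rw [K3Y_succ, K3Y_succ] at g1
      exact g1

end Pool.Agent.Run7.h677.PS
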