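import Pool.Agent.Run7.h677.PS.Stm

/-!
# Project PS, piece K4: the Freudenthal simplices cover, and generic points lie in one of them
-/

set_option autoImplicit false

namespace Pool.Agent.Run7.h677.PS

open Finset

theorem t_K4 : S_K3 → S_K4 := by
  intro hK3 d x hd
  constructor
  · refine ⟨fun i => ⌊x i⌋, Tuple.sort (fun i => -(x i - (⌊x i⌋ : ℝ))), ?_⟩
    rw [(hK3 d _ _ x hd).1]
    refine ⟨fun i => ⟨Int.floor_le _, (Int.lt_floor_add_one _).le⟩, fun l m hlm => ?_⟩
    have := Tuple.monotone_sort (fun i => -(x i - (⌊x i⌋ : ℝ))) hlm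
    simp only [Function.comp_apply] at this
    linarith
  · intro a b π ρ ha hb hna hnb
    obtain ⟨h1, h2⟩ := (hK3 d a π x hd).2 ha hna
    obtain ⟨g1, g2⟩ := (hK3 d b ρ x hd).2 hb hnb
    have hab : a = b := by
      funext i
      have e1 : (a i : ℝ) < b i + 1 := (h1 i).1.trans (g1 i).2
      have e2 : (b i : ℝ) < a i + 1 := (g1 i).1.trans (h1 i).2
      have e1' : a i < b i + 1 := by exact_mod_cast e1
      have e2' : b i < a i + 1 := by exact_mod_cast e2
      omega
    subst hab
    refine ⟨rfl, ?_⟩
    set g : Fin d → ℝ := fun i => x i - a i with hg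
    have s1 : StrictAnti (g ∘ π) := fun l m hlm => h2 l m hlm
    have s2 : StrictMono (fun l => π.symm (ρ l)) := by
      intro l m hlm
      rw [← s1.lt_iff_gt]
      simp only [Function.comp_apply, Equiv.apply_symm_apply]
      exact g2 l m hlm
    have s3 : (fun l => π.symm (ρ l)) = id :=
      (s2.range_inj strictMono_id).1 (by
        rw [Set.range_id]
        exact (ρ.trans π.symm).surjective.range_eq)
    ext l
    have := congrFun s3 l
    simp only [id] at this
    have h5 : ρ l = π l := by
      rw [Equiv.symm_apply_eq] at this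
      exact this
    rw [h5]

end Pool.Agent.Run7.h677.PS
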